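import Pool.Agent.Lib.MP_b4205f_al.CH.Defs

/-!
# AREA: the area of the marked region
-/

namespace Pool.Agent.Lib.MP_b4205f_al.H54

open MeasureTheory Pool.Agent.Lib.MP_b4205f_al.CH

/-- AREA. -/
theorem area (h1 : REC_S) (h2 : VOL_S) (h3 : MEAS_S) (h4 : ODE_S) : AREA_S := by
  intro p n hp hn hpn ε hε
  obtain ⟨hs0, hphi, hanti, hint, -⟩ := h4 p n hp hn hpn
  set M := MM p n with hM
  set Q : Set (ℝ × ℝ) := Set.Icc (-M) M ×ˢ Set.Icc (-M) M with hQ
  have hQm : MeasurableSet Q := measurableSet_Icc.prod measurableSet_Icc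
  set B : ENNReal := ENNReal.ofReal (ss p n 1) * volume Q with hB
  have hQb : Bornology.IsBounded Q := (Metric.isBounded_Icc _ _).prod (Metric.isBounded_Icc _ _)
  have hBt : B < ⊤ := ENNReal.mul_lt_top ENNReal.ofReal_lt_top hQb.measure_lt_top
  have hbd : ∀ K, JJ p n K (ss p n) ≤ B := by
    intro K
    unfold JJ
    calc ∫⁻ q in {q : ℝ × ℝ | HH p n K q.1 q.2}, ENNReal.ofReal (ss p n |q.1|)
        ≤ ∫⁻ q in {q : ℝ × ℝ | HH p n K q.1 q.2},
            Q.indicator (fun _ => ENNReal.ofReal (ss p n 1)) q := by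
          apply setLIntegral_mono' (h3 p n K).1
          intro q hq
          obtain ⟨a, b, c⟩ := (h3 p n K).2.2.2 _ _ hq
          by_cases hqM : |q.1| ≤ M
          · have hmem : q ∈ Q := ⟨abs_le.mp hqM, abs_le.mp (c.le.trans hqM)⟩
            rw [Set.indicator_of_mem hmem]
            exact ENNReal.ofReal_le_ofReal
              (hanti (Set.mem_Ici.mpr le_rfl) (Set.mem_Ici.mpr a.le) a.le)
          · have : ss p n |q.1| = 0 := by
              unfold ss
              rw [if_neg hqM]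
            rw [this]
            simp
      _ ≤ ∫⁻ q, Q.indicator (fun _ => ENNReal.ofReal (ss p n 1)) q :=
          setLIntegral_le_lintegral _ _
      _ = B := by
          rw [lintegral_indicator hQm, setLIntegral_const]
  have hK : ∃ K, JJ p n (K + 1) (ss p n) ≤ JJ p n K (ss p n) + ENNReal.ofReal ε := by
    by_contra hcon
    push Not at hcon
    have hind : ∀ K : ℕ, (K : ENNReal) * ENNReal.ofReal ε ≤ JJ p n K (ss p n) := by
      intro K
      induction K with
      | zero => simp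
      | succ K ih =>
        calc ((K + 1 : ℕ) : ENNReal) * ENNReal.ofReal ε
            = (K : ENNReal) * ENNReal.ofReal ε + ENNReal.ofReal ε := by
              push_cast
              rw [add_mul, one_mul]
          _ ≤ JJ p n K (ss p n) + ENNReal.ofReal ε := by gcongr
          _ ≤ _ := (hcon K).le
    have hle : ∀ K : ℕ, (K : ℝ) * ε ≤ B.toReal := by
      intro K
      have := (hind K).trans (hbd K)
      have h5 := ENNReal.toReal_mono hBt.ne this
      rw [ENNReal.toReal_mul, ENNReal.toReal_ofReal hε.le, ENNReal.toReal_natCast] at h5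
      exact h5
    obtain ⟨K, hK⟩ := exists_nat_gt (B.toReal / ε)
    rw [div_lt_iff₀ hε] at hK
    exact absurd (hle K) (not_le.mpr hK)
  obtain ⟨K, hK⟩ := hK
  refine ⟨K, ?_⟩
  have hrec := h1 p n K hp hn hpn
  have hvol := h2 p n K hp hn hpn
  rw [hint] at hrec
  have hJt : JJ p n K (ss p n) ≠ ⊤ := ((hbd K).trans_lt hBt).ne
  have h5 : JJ p n K (ss p n) + ENNReal.ofReal (4 * (QQ p n - 1)) ≤
      JJ p n K (ss p n) + (ENNReal.ofReal ε + volume {q : ℝ × ℝ | RR p n K q.1 q.2}) := by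
    calc _ ≤ _ := hrec
      _ ≤ (JJ p n K (ss p n) + ENNReal.ofReal ε) + volume {q : ℝ × ℝ | RR p n K q.1 q.2} := by
        gcongr
      _ = _ := by rw [add_assoc]
  have h6 := (ENNReal.add_le_add_iff_left hJt).mp h5
  -- the region has finite area
  have hRb : volume {q : ℝ × ℝ | RR p n K q.1 q.2} < ⊤ := by
    refine lt_of_le_of_lt (measure_mono (t := Set.Icc (-1 : ℝ) 1 ×ˢ
      Set.Icc (-((n : ℝ) ^ 2)) ((n : ℝ) ^ 2)) ?_)
      ((Metric.isBounded_Icc _ _).prod (Metric.isBounded_Icc _ _)).measure_lt_top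
    rintro ⟨x, y⟩ ⟨g1, g2, g3, g4, -⟩
    refine ⟨abs_le.mp g2, abs_le.mp (g4.trans ?_)⟩
    have : (0 : ℝ) ≤ (n : ℝ) ^ 2 := by positivity
    exact mul_le_of_le_one_right this g2
  have h7 := (ENNReal.ofReal_le_iff_le_toReal
    (ENNReal.add_lt_top.mpr ⟨ENNReal.ofReal_lt_top, hRb⟩).ne).mp h6
  rw [ENNReal.toReal_add ENNReal.ofReal_ne_top hRb.ne, ENNReal.toReal_ofReal hε.le] at h7
  linarith

end Pool.Agent.Lib.MP_b4205f_al.H54
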