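import Pool.Agent.Lib.MP_b4205f_al.CH.Defs

/-!
# RGOOD: from real chains to integer chains
-/

namespace Pool.Agent.Lib.MP_b4205f_al.H54

open Pool.Agent.Lib.MP_b4205f_al.CH

theorem hh_good (p n U : ℕ) (hU : 1 ≤ U) (K : ℕ) : ∀ Y W : ℤ,
    HH p n K ((Y : ℝ) / U) ((W : ℝ) / U) →
    W ≠ 0 ∧ |W| < |Y| ∧ Good p n U W ((n : ℤ) ^ 2 * Y) := by
  have hU0 : (0 : ℝ) < U := by exact_mod_cast hU
  have base : ∀ Y W : ℤ, 1 < |(Y : ℝ) / U| → 0 < |(W : ℝ) / U| → |(W : ℝ) / U| ≤ 1 →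
      W ≠ 0 ∧ |W| < |Y| ∧ Good p n U W ((n : ℤ) ^ 2 * Y) := by
    intro Y W h1 h2 h3
    have hW : W ≠ 0 := by
      rintro rfl
      simp at h2
    rw [abs_div, abs_of_pos hU0, one_lt_div hU0] at h1
    rw [abs_div, abs_of_pos hU0, div_le_one hU0] at h3
    have h1' : (U : ℤ) < |Y| := by exact_mod_cast h1
    have h3' : |W| ≤ (U : ℤ) := by exact_mod_cast h3
    exact ⟨hW, lt_of_le_of_lt h3' h1', Good.low _ _ hW h3'⟩
  induction K with
  | zero =>
    intro Y W h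
    exact base Y W h.1 h.2.1 h.2.2
  | succ K ih =>
    intro Y W h
    rcases h with h | ⟨h1, h2, m, _, h3⟩
    · exact base Y W h.1 h.2.1 h.2.2
    · have e : nxt p n m ((Y : ℝ) / U) ((W : ℝ) / U) =
          (((n : ℤ) ^ 2 * Y - p * m * W : ℤ) : ℝ) / U := by
        unfold nxt
        push_cast
        ring
      rw [e] at h3
      obtain ⟨h4, h5, h6⟩ := ih _ _ h3
      have hW : W ≠ 0 := by
        rintro rfl
        simp at h1
        linarith
      refine ⟨hW, ?_, Good.step _ _ _ h4 h5 ?_ h6⟩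
      · rw [abs_div, abs_div, abs_of_pos hU0, div_lt_div_iff_of_pos_right hU0] at h2
        exact_mod_cast h2
      · exact ⟨m, by ring⟩

/-- RGOOD. -/
theorem rgood : RGOOD_S := by
  intro p n K U a b hU h
  have hU0 : (0 : ℝ) < U := by exact_mod_cast hU
  obtain ⟨h1, h2, h3, h4, m, _, h5⟩ := h
  have e : nxt p n m ((a : ℝ) / U) ((b : ℝ) / U) =
      (((n : ℤ) ^ 2 * a - p * m * b : ℤ) : ℝ) / U := by
    unfold nxt
    push_cast
    ring
  rw [e] at h5
  obtain ⟨h6, h7, h8⟩ := hh_good p n U hU K _ _ h5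
  have ha : a ≠ 0 := by
    rintro rfl
    simp at h1
  have hb : b ≠ 0 := by
    rintro rfl
    simp at h3
    linarith
  refine ⟨ha, ?_, hb, ?_, Good.step _ _ _ h6 h7 ?_ h8⟩
  · rw [abs_div, abs_of_pos hU0, div_le_one hU0] at h2
    exact_mod_cast h2
  · rw [abs_div, abs_div, abs_of_pos hU0, ← mul_div_assoc,
      div_le_div_iff_of_pos_right hU0] at h4
    exact_mod_cast h4
  · exact ⟨m, by ring⟩

end Pool.Agent.Lib.MP_b4205f_al.H54
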